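import Pool.Agent.H52.S5.Vert3
import Pool.Agent.H77.SN.Defs

/-!
# Section 5.2 of `db5e86_proof`, `m = 2`: the identity (S)

`(r e, f)` is a smooth vertical field with values in the Zariski tangent spaces of `R`, `e` and `f`
are unit vectors, and `(e, r f)` is a test pair at a dense set of points of `R` (the class returns of
one class function). Then `3 (Dr)² - 2 r D²r = 4 r² (|De|² - |Df|²)` on `R`.
-/

set_option autoImplicit false
set_option linter.unusedSectionVars false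

open scoped InnerProductSpace Topology ContDiff
open Set Filter

namespace Pool.Agent.H52.S5

open Pool.Agent.H59.Zar Pool.Agent.H52.S3 Pool.Agent.H77.SN

variable {E : Type*} [NormedAddCommGroup E] [InnerProductSpace ℝ E] [FiniteDimensional ℝ E]
  {R U : Set ((E × E) × (E × E))} {e f : (E × E) × (E × E) → E}

theorem VField.dd_inner (hD : VField R U e f) {g g' : (E × E) × (E × E) → E}
    (hg : ContDiffOn ℝ ∞ g U) (hg' : ContDiffOn ℝ ∞ g' U) {q : (E × E) × (E × E)} (hq : q ∈ U) :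
    dd e f (fun q => ⟪g q, g' q⟫_ℝ) q = ⟪g q, dd e f g' q⟫_ℝ + ⟪dd e f g q, g' q⟫_ℝ := by
  have h1 := ((hD.diff hg hq).hasFDerivAt.inner ℝ (hD.diff hg' hq).hasFDerivAt).fderiv
  show fderiv ℝ (fun q => ⟪g q, g' q⟫_ℝ) q (VF e f q) = _
  rw [h1]
  rfl

theorem VField.dd_mul (hD : VField R U e f) {g g' : (E × E) × (E × E) → ℝ}
    (hg : ContDiffOn ℝ ∞ g U) (hg' : ContDiffOn ℝ ∞ g' U) {q : (E × E) × (E × E)} (hq : q ∈ U) :
    dd e f (fun q => g q * g' q) q = g q * dd e f g' q + dd e f g q * g' q :=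
  hD.dd_smul hg hg' hq

/-- A unit vector is orthogonal to its derivative. -/
theorem VField.unit₁ (hD : VField R U e f) {g : (E × E) × (E × E) → E}
    (hg : ContDiffOn ℝ ∞ g U) (h1 : ∀ q ∈ R, q ∈ U → ‖g q‖ = 1) {q : (E × E) × (E × E)}
    (hqR : q ∈ R) (hq : q ∈ U) : ⟪g q, dd e f g q⟫_ℝ = 0 := by
  have h2 := hD.dd_congr (g := fun q => ⟪g q, g q⟫_ℝ) (g' := fun _ => (1 : ℝ)) (hg.inner ℝ hg)
    contDiffOn_const (fun q hqR hq => by rw [real_inner_self_eq_norm_sq, h1 q hqR hq]; norm_num)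
    hqR hq
  have h3 : dd e f (fun _ => (1 : ℝ)) q = 0 := by
    show fderiv ℝ (fun _ => (1 : ℝ)) q _ = 0
    simp
  rw [h3, hD.dd_inner hg hg hq] at h2
  have h4 := real_inner_comm (g q) (dd e f g q)
  linarith

/-- The second derivative of a unit vector. -/
theorem VField.unit₂ (hD : VField R U e f) {g : (E × E) × (E × E) → E}
    (hg : ContDiffOn ℝ ∞ g U) (h1 : ∀ q ∈ R, q ∈ U → ‖g q‖ = 1) {q : (E × E) × (E × E)}
    (hqR : q ∈ R) (hq : q ∈ U) :
    ⟪g q, dd e f (dd e f g) q⟫_ℝ = -⟪dd e f g q, dd e f g q⟫_ℝ := by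
  have hg1 := hD.smooth_dd hg
  have h2 := hD.dd_zero (g := fun q => ⟪g q, dd e f g q⟫_ℝ) (hg.inner ℝ hg1)
    (fun q hqR hq => hD.unit₁ hg h1 hqR hq) hqR hq
  rw [hD.dd_inner hg hg1 hq] at h2
  linarith

variable {r ν : (E × E) × (E × E) → ℝ} {ζ : E × E → E} {A : E × E → E}

theorem neg_dd {V : Type*} [NormedAddCommGroup V] [NormedSpace ℝ V]
    (g : (E × E) × (E × E) → V) (q : (E × E) × (E × E)) :
    dd e f (fun q => -(g q)) q = -dd e f g q := by
  show fderiv ℝ (fun q => -(g q)) q _ = _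
  rw [fderiv_fun_neg]
  rfl

/-- The identity (S). -/
theorem idS (hD : VField R U (fun q => r q • e q) f) (he : ContDiffOn ℝ ∞ e U)
    (hr : ContDiffOn ℝ ∞ r U) (he1 : ∀ q ∈ R, q ∈ U → ‖e q‖ = 1)
    (hf1 : ∀ q ∈ R, q ∈ U → ‖f q‖ = 1) (hfv : ∀ q ∈ R, q ∈ U → ⟪q.2.2, f q⟫_ℝ = 0)
    (hν : ContDiffOn ℝ ∞ ν U) (hν0 : ∀ q ∈ R, q ∈ U → ν q ≠ 0)
    (h : IdR R U ζ A (fun q => -(ν q)))
    (hd : ∀ q ∈ R, q ∈ U → q ∈ closure {q' | q' ∈ R ∧ q' ∈ U ∧
      TPr ζ (ν q') q'.1.1 q'.2.1 (e q') (r q' • f q')}) {q : (E × E) × (E × E)} (hqR : q ∈ R)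
    (hq : q ∈ U) :
    3 * dd (fun q => r q • e q) f r q ^ 2
        - 2 * r q * dd (fun q => r q • e q) f (dd (fun q => r q • e q) f r) q
      = 4 * r q ^ 2 * (⟪dd (fun q => r q • e q) f e q, dd (fun q => r q • e q) f e q⟫_ℝ
          - ⟪dd (fun q => r q • e q) f f q, dd (fun q => r q • e q) f f q⟫_ℝ) := by
  set G : (E × E) × (E × E) → E := fun q => r q • e q with hG
  have hGs : ContDiffOn ℝ ∞ G U := hD.smooth₁
  have hfs := hD.smooth₂
  have hr1 := hD.smooth_dd hr
  have hr2 := hD.smooth_dd hr1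
  have hν1 := hD.smooth_dd hν
  have hν2 := hD.smooth_dd hν1
  have he2 := hD.smooth_dd he
  have hf2 := hD.smooth_dd hfs
  -- closure principle
  have clos : ∀ g : (E × E) × (E × E) → ℝ, ContinuousOn g U →
      (∀ q ∈ R, q ∈ U → TPr ζ (ν q) q.1.1 q.2.1 (e q) (r q • f q) → g q = 0) →
      ∀ q ∈ R, q ∈ U → g q = 0 := by
    intro g hg h0 q hqR hq
    have h1 := (hg.continuousAt (hD.isOpen.mem_nhds hq)).continuousWithinAt
      (s := {q' | q' ∈ R ∧ q' ∈ U ∧ TPr ζ (ν q') q'.1.1 q'.2.1 (e q') (r q' • f q')})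
    have h2 := h1.mem_closure_image (hd q hqR hq)
    have h3 : g q ∈ ({0} : Set ℝ) := by
      refine closure_minimal ?_ isClosed_singleton h2
      rintro _ ⟨q', ⟨h4, h5, h6⟩, rfl⟩
      exact h0 q' h4 h5 h6
    exact h3
  -- derivatives of `G = r e`
  have dG : ∀ q ∈ U, dd G f G q = r q • dd G f e q + dd G f r q • e q := fun q hq =>
    hD.dd_smul hr he hq
  have gre : ContDiffOn ℝ ∞ (fun q => r q • dd G f e q) U := hr.smul he2
  have gre' : ContDiffOn ℝ ∞ (fun q => dd G f r q • e q) U := hr1.smul he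
  have ddG : ∀ q ∈ U, dd G f (dd G f G) q = r q • dd G f (dd G f e) q
      + (2 * dd G f r q) • dd G f e q + dd G f (dd G f r) q • e q := by
    intro q hq
    have h1 : dd G f (dd G f G) q = dd G f (fun q => r q • dd G f e q + dd G f r q • e q) q := by
      show fderiv ℝ (dd G f G) q (VF G f q)
        = fderiv ℝ (fun q => r q • dd G f e q + dd G f r q • e q) q (VF G f q)
      have h2 : dd G f G =ᶠ[𝓝 q] fun q => r q • dd G f e q + dd G f r q • e q := by
        filter_upwards [hD.isOpen.mem_nhds hq] with q' hq'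
        exact dG q' hq'
      rw [h2.fderiv_eq]
    rw [h1, hD.dd_add gre gre' hq, hD.dd_smul hr he2 hq, hD.dd_smul hr1 he hq]
    module
  -- derivatives of `-ν`
  have nν : ∀ q, dd G f (fun q => -(ν q)) q = -dd G f ν q := fun q => neg_dd ν q
  have nν' : dd G f (fun q => -(ν q)) = fun q => -dd G f ν q := funext nν
  have nν2 : ∀ q, dd G f (dd G f (fun q => -(ν q))) q = -dd G f (dd G f ν) q := fun q => by
    rw [nν']; exact neg_dd _ q
  have nν2' : dd G f (dd G f (fun q => -(ν q))) = fun q => -dd G f (dd G f ν) q := funext nν2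
  -- (I')
  have I1 : ∀ q ∈ R, q ∈ U → 2 * r q * dd G f ν q - ν q * dd G f r q = 0 := by
    refine clos (fun q => 2 * r q * dd G f ν q - ν q * dd G f r q) ?_ ?_
    · exact (((contDiffOn_const.mul hr).mul hν1).sub (hν.mul hr1)).continuousOn
    · intro q hqR hq ht
      have h1 := ht _ _ (hD.two h q hqR hq)
      have a1 := hD.unit₁ he he1 hqR hq
      have a2 := hD.unit₁ hfs hf1 hqR hq
      have a3 : ⟪f q, f q⟫_ℝ = 1 := by
        rw [real_inner_self_eq_norm_sq, hf1 q hqR hq]; norm_num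
      have a4 : ⟪e q, e q⟫_ℝ = 1 := by
        rw [real_inner_self_eq_norm_sq, he1 q hqR hq]; norm_num
      rw [dG q hq] at h1
      simp only [nν, nν2, inner_add_left, real_inner_smul_left, real_inner_smul_right,
        real_inner_comm (f q) (dd G f f q), real_inner_comm (e q) (dd G f e q), a1, a2, a3, a4,
        hfv q hqR hq] at h1
      have b1 : ⟪dd G f f q, f q⟫_ℝ = 0 := by rw [real_inner_comm]; exact a2
      have b2 : ⟪dd G f e q, e q⟫_ℝ = 0 := by rw [real_inner_comm]; exact a1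
      try rw [b1] at h1
      try rw [b2] at h1
      linarith
  -- the derivative of (I')
  have I2 : ∀ q ∈ R, q ∈ U → 2 * r q * dd G f (dd G f ν) q + dd G f r q * dd G f ν q
      - ν q * dd G f (dd G f r) q = 0 := by
    intro q hqR hq
    have g1 : ContDiffOn ℝ ∞ (fun q => 2 * r q) U := contDiffOn_const.mul hr
    have g2 : ContDiffOn ℝ ∞ (fun q => 2 * r q * dd G f ν q) U := g1.mul hν1
    have g3 : ContDiffOn ℝ ∞ (fun q => ν q * dd G f r q) U := hν.mul hr1
    have h1 := hD.dd_congr g2 g3 (fun q hqR hq => sub_eq_zero.1 (I1 q hqR hq)) hqR hq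
    have h2 : dd G f (fun q => 2 * r q) q = 2 * dd G f r q := by
      have h3 := hD.dd_mul (g := fun _ => (2 : ℝ)) (g' := r) contDiffOn_const hr hq
      have h4 : dd G f (fun _ => (2 : ℝ)) q = 0 := by
        show fderiv ℝ (fun _ => (2 : ℝ)) q _ = 0
        simp
      rw [h4, zero_mul, add_zero] at h3
      exact h3
    rw [hD.dd_mul g1 hν1 hq, hD.dd_mul hν hr1 hq, h2] at h1
    linarith
  -- (S)
  have hcont : ContinuousOn (fun q => ν q * (3 * dd G f r q ^ 2 - 2 * r q * dd G f (dd G f r) q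
      - 4 * r q ^ 2 * (⟪dd G f e q, dd G f e q⟫_ℝ - ⟪dd G f f q, dd G f f q⟫_ℝ))) U := by
    have c1 := hν.continuousOn
    have c2 := hr1.continuousOn
    have c3 := hr.continuousOn
    have c4 := hr2.continuousOn
    have c5 : ContinuousOn (fun q => ⟪dd G f e q, dd G f e q⟫_ℝ) U := (he2.inner ℝ he2).continuousOn
    have c6 : ContinuousOn (fun q => ⟪dd G f f q, dd G f f q⟫_ℝ) U := (hf2.inner ℝ hf2).continuousOn
    exact c1.mul (((continuousOn_const.mul (c2.pow 2)).sub ((continuousOn_const.mul c3).mul c4)).sub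
      ((continuousOn_const.mul (c3.pow 2)).mul (c5.sub c6)))
  have S1 := clos _ hcont ?_ q hqR hq
  · have h1 := (mul_eq_zero.1 S1).resolve_left (hν0 q hqR hq)
    linarith
  · intro q hqR hq ht
    have h1 := ht _ _ (hD.three h q hqR hq)
    have a1 := hD.unit₁ he he1 hqR hq
    have a2 := hD.unit₁ hfs hf1 hqR hq
    have a1' := hD.unit₂ he he1 hqR hq
    have a2' := hD.unit₂ hfs hf1 hqR hq
    have a3 : ⟪f q, f q⟫_ℝ = 1 := by
      rw [real_inner_self_eq_norm_sq, hf1 q hqR hq]; norm_num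
    have a4 : ⟪e q, e q⟫_ℝ = 1 := by
      rw [real_inner_self_eq_norm_sq, he1 q hqR hq]; norm_num
    rw [ddG q hq] at h1
    have b1 : ⟪dd G f f q, f q⟫_ℝ = 0 := by rw [real_inner_comm]; exact a2
    have b2 : ⟪dd G f e q, e q⟫_ℝ = 0 := by rw [real_inner_comm]; exact a1
    have b3 : ⟪dd G f (dd G f f) q, f q⟫_ℝ = -⟪dd G f f q, dd G f f q⟫_ℝ := by
      rw [real_inner_comm]; exact a2'
    have b4 : ⟪dd G f (dd G f e) q, e q⟫_ℝ = -⟪dd G f e q, dd G f e q⟫_ℝ := by
      rw [real_inner_comm]; exact a1'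
    simp only [nν, nν2, inner_add_left, real_inner_smul_left, real_inner_smul_right,
      b1, b2, b3, b4, a3, a4, hfv q hqR hq] at h1
    have h2 := I1 q hqR hq
    have h3 := I2 q hqR hq
    linear_combination (4 * r q) * h1 + (6 * r q) * h3 - (3 * dd G f r q) * h2

end Pool.Agent.H52.S5
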