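import Pool.Agent.H52.S3.LemmaA
import Pool.Agent.H79.OM.Base
import Pool.Agent.H59.Zar.RelGood

/-!
# Smooth lifts of base vectors to the Zariski tangent spaces of the relation
-/

set_option autoImplicit false
set_option linter.unusedSectionVars false

open scoped InnerProductSpace Topology ContDiff
open Set Filter

namespace Pool.Agent.H52.S5

open Pool.Agent.H91.GE hiding G1 G11 Nondeg Br exists_br cF smooth_cF Cfg mem_TSet_of_map
open Pool.Agent.H59.LV Pool.Agent.H59.ND Pool.Agent.H59.Zar Pool.Agent.H77.SN Pool.Agent.H52.S3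

variable {E F : Type*} [NormedAddCommGroup E] [InnerProductSpace ℝ E] [FiniteDimensional ℝ E]
  [NormedAddCommGroup F] [InnerProductSpace ℝ F] [FiniteDimensional ℝ F]
  {S : Set E} {A : E × E → E} {K K₂ : NNReal} {Φ : ℝ → E × E → E × E} {n : ℕ}

/-- The tangential projection given by a local equation. -/
noncomputable def PT (f : E → F) (y : E) : E →L[ℝ] E :=
  ContinuousLinearMap.id ℝ E - (Rinv (fderiv ℝ f y)).comp (fderiv ℝ f y)

theorem PT_apply (f : E → F) (y a : E) :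
    PT f y a = a - Rinv (fderiv ℝ f y) (fderiv ℝ f y a) := rfl

theorem PT_mem {O : Set E} {f : E → F} (hf : IsLoc S O f) {y : E} (hy : y ∈ S) (hO : y ∈ O)
    (a : E) : PT f y a ∈ ZT S y := by
  rw [mem_TS' hf hy hO, PT_apply, map_sub, comp_Rinv (hf.surj y hO), sub_self]

theorem PT_eq {O : Set E} {f : E → F} (hf : IsLoc S O f) {y : E} (hy : y ∈ S) (hO : y ∈ O)
    {a : E} (ha : a ∈ ZT S y) : PT f y a = a := by
  rw [PT_apply, (mem_TS' hf hy hO).1 ha, map_zero, sub_zero]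

theorem contDiffAt_PT {O : Set E} {f : E → F} (hf : IsLoc S O f) {y : E} (hO : y ∈ O) :
    ContDiffAt ℝ ∞ (PT f) y := by
  have h1 : ContDiffAt ℝ ∞ (fderiv ℝ f) y := (hf.contDiffAt hO).fderiv_right (by norm_num)
  have h2 : ContDiffAt ℝ ∞ (fun y => Rinv (fderiv ℝ f y)) y :=
    ContDiffAt.comp y (g := (Rinv : (E →L[ℝ] F) → (F →L[ℝ] E))) (f := fderiv ℝ f)
      (contDiffAt_Rinv (hf.surj y hO)) h1
  exact contDiffAt_const.sub (h2.clm_comp h1)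

/-- **Smooth lifts.** Near `(w₀, Φ t w₀)`, `w₀` a good point, `t` a nondegenerate length. -/
theorem exists_smooth_lift (h : GFlow F S A K K₂ Φ)
    (hdim : Module.finrank ℝ E = Module.finrank ℝ F + n) {w₀ : E × E}
    (hw : w₀ ∈ GoodPt (UT S) (RR Φ S)) {t : ℝ} (hnd : NDeg Φ S w₀ t) :
    ∃ s : (E × E) × (E × E) → (E × E →L[ℝ] (E × E) × (E × E)),
      (∃ O, IsOpen O ∧ (w₀, Φ t w₀) ∈ O ∧ ContDiffOn ℝ ∞ s O) ∧
      ∀ᶠ q in 𝓝[RR Φ S] (w₀, Φ t w₀), ∀ z : E × E, z.1 ∈ ZT S q.1.1 → z.2 ∈ ZT S q.2.1 →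
        s q z ∈ ZT (RR Φ S) q ∧ bs E (s q z) = z := by
  have hR := retRel h hdim
  have hwU : w₀ ∈ UT S := hw.1
  have hvU : Φ t w₀ ∈ UT S := hR.flow_mem hwU t
  set p : (E × E) × (E × E) := (w₀, Φ t w₀) with hp
  have hpR : p ∈ RR Φ S := hR.mem_flow hwU t
  have hxS : w₀.1 ∈ S := fst_mem_TSet hwU.1
  have hyS : (Φ t w₀).1 ∈ S := fst_mem_TSet hvU.1
  obtain ⟨O₁, hO₁, f₁, hf₁⟩ := h.sub w₀.1 hxS
  obtain ⟨O₂, hO₂, f₂, hf₂⟩ := h.sub (Φ t w₀).1 hyS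
  obtain ⟨P, ⟨O₃, hO₃, hPs⟩, hP⟩ := hR.exists_projR hw t
  -- the projection onto the product of the tangent spaces
  set Q : (E × E) × (E × E) → (E × E →L[ℝ] E × E) := fun q =>
    (ContinuousLinearMap.inl ℝ E E).comp ((PT f₁ q.1.1).comp (ContinuousLinearMap.fst ℝ E E))
      + (ContinuousLinearMap.inr ℝ E E).comp
        ((PT f₂ q.2.1).comp (ContinuousLinearMap.snd ℝ E E)) with hQ
  have hQa : ∀ q z, Q q z = (PT f₁ q.1.1 z.1, PT f₂ q.2.1 z.2) := fun q z => by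
    show ((PT f₁ q.1.1 z.1, (0 : E)) : E × E) + ((0 : E), PT f₂ q.2.1 z.2) = _
    rw [Prod.mk_add_mk, add_zero, zero_add]
  have hQmem : ∀ q ∈ RR Φ S, q.1.1 ∈ O₁ → q.2.1 ∈ O₂ → ∀ z,
      (Q q z).1 ∈ ZT S q.1.1 ∧ (Q q z).2 ∈ ZT S q.2.1 := fun q hq h1 h2 z =>
    by
      rw [hQa]
      exact ⟨PT_mem hf₁ (fst_mem_TSet (hR.sub q hq).1.1) h1 _,
        PT_mem hf₂ (fst_mem_TSet (hR.sub q hq).2.1) h2 _⟩
  have hQid : ∀ q ∈ RR Φ S, q.1.1 ∈ O₁ → q.2.1 ∈ O₂ → ∀ z : E × E, z.1 ∈ ZT S q.1.1 →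
      z.2 ∈ ZT S q.2.1 → Q q z = z := fun q hq h1 h2 z hz1 hz2 => by
    rw [hQa, PT_eq hf₁ (fst_mem_TSet (hR.sub q hq).1.1) h1 hz1,
      PT_eq hf₂ (fst_mem_TSet (hR.sub q hq).2.1) h2 hz2]
  -- the right inverse at `p`
  have hex : ∀ z : E × E, ∃ c ∈ ZT (RR Φ S) p, bs E c = Q p z := by
    intro z
    obtain ⟨h1, h2⟩ := hQmem p hpR hO₁ hO₂ z
    obtain ⟨a, b, hab⟩ := Pool.Agent.H79.OM.exists_base h hdim hwU hnd h1 h2
    exact ⟨_, hab, rfl⟩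
  obtain ⟨s₀, hs₀⟩ : ∃ s₀ : E × E →L[ℝ] (E × E) × (E × E),
      ∀ z, s₀ z ∈ ZT (RR Φ S) p ∧ bs E (s₀ z) = Q p z := by
    set bT : ZT (RR Φ S) p →ₗ[ℝ] E × E := (bs E).toLinearMap ∘ₗ (ZT (RR Φ S) p).subtype with hbT
    set Rg : Submodule ℝ (E × E) := LinearMap.range bT with hRg
    obtain ⟨g, hg⟩ := bT.rangeRestrict.exists_rightInverse_of_surjective
      (LinearMap.range_rangeRestrict _)
    have hQR : ∀ z, (Q p z) ∈ Rg := fun z => by
      obtain ⟨c, hc, hcz⟩ := hex z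
      exact ⟨⟨c, hc⟩, hcz⟩
    set l : E × E →ₗ[ℝ] (E × E) × (E × E) :=
      (ZT (RR Φ S) p).subtype ∘ₗ g ∘ₗ ((Q p).toLinearMap.codRestrict Rg hQR) with hl
    refine ⟨LinearMap.toContinuousLinearMap l, fun z => ⟨(g _).2, ?_⟩⟩
    have h1 := LinearMap.congr_fun hg ⟨Q p z, hQR z⟩
    exact congrArg Subtype.val h1
  -- the matrix `M`
  set M : (E × E) × (E × E) → (E × E →L[ℝ] E × E) := fun q =>
    (Q q).comp ((bs E).comp ((P q).comp s₀)) + (ContinuousLinearMap.id ℝ (E × E) - Q q) with hM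
  have hPp := hP.self_of_nhdsWithin hpR
  have hMp : M p = ContinuousLinearMap.id ℝ (E × E) := by
    refine ContinuousLinearMap.ext fun z => ?_
    show Q p (bs E (P p (s₀ z))) + (z - Q p z) = z
    obtain ⟨h1, h2⟩ := hs₀ z
    obtain ⟨h3, h4⟩ := hQmem p hpR hO₁ hO₂ z
    rw [hPp.2 _ h1, h2, hQid p hpR hO₁ hO₂ _ h3 h4]
    abel
  -- smoothness
  set O₀ : Set ((E × E) × (E × E)) := interior O₃ ∩ ({q | q.1.1 ∈ O₁} ∩ {q | q.2.1 ∈ O₂}) with hO₀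
  have hO₀o : IsOpen O₀ := isOpen_interior.inter
    ((hf₁.isOpen.preimage (continuous_fst.comp continuous_fst)).inter
      (hf₂.isOpen.preimage (continuous_fst.comp continuous_snd)))
  have hpO₀ : p ∈ O₀ := ⟨mem_interior_iff_mem_nhds.2 hO₃, hO₁, hO₂⟩
  have hPs' : ∀ q ∈ O₀, ContDiffAt ℝ ∞ P q := fun q hq =>
    hPs.contDiffAt (mem_interior_iff_mem_nhds.1 hq.1)
  have hQs : ∀ q ∈ O₀, ContDiffAt ℝ ∞ Q q := by
    intro q hq
    have c1 : ContDiffAt ℝ ∞ (fun q : (E × E) × (E × E) => PT f₁ q.1.1) q :=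
      ContDiffAt.comp q (g := PT f₁) (f := fun q : (E × E) × (E × E) => q.1.1)
        (contDiffAt_PT hf₁ hq.2.1) contDiffAt_fst.fst
    have c2 : ContDiffAt ℝ ∞ (fun q : (E × E) × (E × E) => PT f₂ q.2.1) q :=
      ContDiffAt.comp q (g := PT f₂) (f := fun q : (E × E) × (E × E) => q.2.1)
        (contDiffAt_PT hf₂ hq.2.2) contDiffAt_snd.fst
    exact (contDiffAt_const.clm_comp (c1.clm_comp contDiffAt_const)).add
      (contDiffAt_const.clm_comp (c2.clm_comp contDiffAt_const))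
  have hMs : ∀ q ∈ O₀, ContDiffAt ℝ ∞ M q := fun q hq =>
    ((hQs q hq).clm_comp (contDiffAt_const.clm_comp ((hPs' q hq).clm_comp contDiffAt_const))).add
      (contDiffAt_const.sub (hQs q hq))
  set Iv : Set (E × E →L[ℝ] E × E) :=
    range (ContinuousLinearEquiv.toContinuousLinearMap : ((E × E) ≃L[ℝ] (E × E)) → _) with hIv
  have hIvo : IsOpen Iv := ContinuousLinearEquiv.isOpen
  have hMc : ContinuousOn M O₀ := fun q hq => (hMs q hq).continuousAt.continuousWithinAt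
  have hOo : IsOpen (O₀ ∩ M ⁻¹' Iv) := hMc.isOpen_inter_preimage hO₀o hIvo
  have hpO : p ∈ O₀ ∩ M ⁻¹' Iv :=
    ⟨hpO₀, ⟨ContinuousLinearEquiv.refl ℝ (E × E), by rw [hMp]; rfl⟩⟩
  refine ⟨fun q => (P q).comp (s₀.comp (ContinuousLinearMap.inverse (M q))),
    ⟨O₀ ∩ M ⁻¹' Iv, hOo, hpO, ?_⟩, ?_⟩
  · rintro q ⟨hq, e, he⟩
    have h1 : ContDiffAt ℝ ∞ (ContinuousLinearMap.inverse : (E × E →L[ℝ] E × E) → _) (M q) := by
      rw [← he]
      exact contDiffAt_map_inverse e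
    have h2 : ContDiffAt ℝ ∞ (fun q => ContinuousLinearMap.inverse (M q)) q :=
      ContDiffAt.comp q (g := ContinuousLinearMap.inverse) h1 (hMs q hq)
    exact ((hPs' q hq).clm_comp (contDiffAt_const.clm_comp h2)).contDiffWithinAt
  · have e1 : ∀ᶠ q in 𝓝[RR Φ S] p, q ∈ O₀ ∩ M ⁻¹' Iv := nhdsWithin_le_nhds (hOo.mem_nhds hpO)
    filter_upwards [e1, hP, self_mem_nhdsWithin] with q hq hPq hqR z hz1 hz2
    obtain ⟨hq0, e, he⟩ := hq
    have hq1 : q.1.1 ∈ O₁ := hq0.2.1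
    have hq2 : q.2.1 ∈ O₂ := hq0.2.2
    set y : E × E := ContinuousLinearMap.inverse (M q) z with hy
    have hMy : M q y = z := by
      rw [hy, ← he, ContinuousLinearMap.inverse_equiv]
      exact e.apply_symm_apply z
    have hQQ : ∀ u, Q q (Q q u) = Q q u := fun u =>
      hQid q hqR hq1 hq2 _ (hQmem q hqR hq1 hq2 u).1 (hQmem q hqR hq1 hq2 u).2
    have hMy' : Q q (bs E (P q (s₀ y))) + (y - Q q y) = z := hMy
    have hQz : Q q z = z := hQid q hqR hq1 hq2 z hz1 hz2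
    have h1 : y - Q q y = 0 := by
      have h2 := congrArg (fun u => u - Q q u) hMy'
      simp only [map_add, map_sub, hQQ, hQz, sub_self, add_zero] at h2
      rw [← h2]
      abel
    rw [h1, add_zero] at hMy'
    have h3 : P q (s₀ y) ∈ ZT (RR Φ S) q := hPq.1 _
    have h4 := ZT_fst_snd (⟨hR.sub, hR.inv⟩ : RInv Φ S (RR Φ S)) h3
    have h6 : (bs E (P q (s₀ y))).1 ∈ ZT S q.1.1 :=
      fst_mem_TS (a := (P q (s₀ y)).1) (hR.sub q hqR).1 h4.1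
    have h7 : (bs E (P q (s₀ y))).2 ∈ ZT S q.2.1 :=
      fst_mem_TS (a := (P q (s₀ y)).2) (hR.sub q hqR).2 h4.2
    have h5 : Q q (bs E (P q (s₀ y))) = bs E (P q (s₀ y)) := hQid q hqR hq1 hq2 _ h6 h7
    refine ⟨h3, ?_⟩
    show bs E (P q (s₀ y)) = z
    rw [← h5]
    exact hMy'

end Pool.Agent.H52.S5
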