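import Pool.Agent.H52.S3.RawA

/-!
# Section 5.2 of `db5e86_proof`, `m = 2`: the identity (C1) differentiated along a vertical field

`D q = ((0, e q), (0, f q))` is a smooth vertical field with values in the Zariski tangent spaces of
`R`.  The identity `D ζ (w, κ v) = 0` on `R` is differentiated once, twice and three times along it.
-/

set_option autoImplicit false
set_option linter.unusedSectionVars false

open scoped Topology ContDiff
open Set Filter

namespace Pool.Agent.H52.S5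

open Pool.Agent.H59.Zar Pool.Agent.H52.S3

variable {E W : Type*} [NormedAddCommGroup E] [NormedSpace ℝ E] [FiniteDimensional ℝ E]
  [NormedAddCommGroup W] [NormedSpace ℝ W] [FiniteDimensional ℝ W]

/-- The vertical field with components `e`, `f`. -/
def VF (e f : (E × E) × (E × E) → E) (q : (E × E) × (E × E)) : (E × E) × (E × E) :=
  ((0, e q), (0, f q))

/-- The derivative along the vertical field with components `e`, `f`. -/
noncomputable def dd {V : Type*} [NormedAddCommGroup V] [NormedSpace ℝ V]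
    (e f : (E × E) × (E × E) → E) (g : (E × E) × (E × E) → V) (q : (E × E) × (E × E)) : V :=
  fderiv ℝ g q (VF e f q)

/-- A smooth vertical field on the open set `U` with values in the Zariski tangent spaces. -/
structure VField (R U : Set ((E × E) × (E × E))) (e f : (E × E) × (E × E) → E) : Prop where
  isOpen : IsOpen U
  smooth₁ : ContDiffOn ℝ ∞ e U
  smooth₂ : ContDiffOn ℝ ∞ f U
  mem : ∀ q ∈ R, q ∈ U → VF e f q ∈ ZT R q

variable {R U : Set ((E × E) × (E × E))} {e f : (E × E) × (E × E) → E}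

theorem VField.smooth (hD : VField R U e f) : ContDiffOn ℝ ∞ (VF e f) U :=
  (contDiffOn_const.prodMk hD.smooth₁).prodMk (contDiffOn_const.prodMk hD.smooth₂)

theorem VField.smooth_dd (hD : VField R U e f) {V : Type*} [NormedAddCommGroup V]
    [NormedSpace ℝ V] {g : (E × E) × (E × E) → V} (hg : ContDiffOn ℝ ∞ g U) :
    ContDiffOn ℝ ∞ (dd e f g) U := by
  intro q hq
  have h1 : ContDiffAt ℝ ∞ g q := hg.contDiffAt (hD.isOpen.mem_nhds hq)
  have h2 : ContDiffAt ℝ ∞ (fderiv ℝ g) q := h1.fderiv_right (by norm_num)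
  exact (h2.clm_apply (hD.smooth.contDiffAt (hD.isOpen.mem_nhds hq))).contDiffWithinAt

theorem VField.diff (hD : VField R U e f) {V : Type*} [NormedAddCommGroup V]
    [NormedSpace ℝ V] {g : (E × E) × (E × E) → V} (hg : ContDiffOn ℝ ∞ g U)
    {q : (E × E) × (E × E)} (hq : q ∈ U) : DifferentiableAt ℝ g q :=
  (hg.contDiffAt (hD.isOpen.mem_nhds hq)).differentiableAt (by simp)

/-- Functions which vanish on `R` are constant along the field. -/
theorem VField.dd_zero (hD : VField R U e f) {V : Type*} [NormedAddCommGroup V]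
    [NormedSpace ℝ V] [FiniteDimensional ℝ V] {g : (E × E) × (E × E) → V}
    (hg : ContDiffOn ℝ ∞ g U) (h0 : ∀ q ∈ R, q ∈ U → g q = 0) {q : (E × E) × (E × E)}
    (hqR : q ∈ R) (hq : q ∈ U) : dd e f g q = 0 :=
  fderiv_eq_zero' (hD.isOpen.mem_nhds hq) hg h0 (hD.mem q hqR hq)

/-- Two functions which agree on `R` have the same derivative along the field. -/
theorem VField.dd_congr (hD : VField R U e f) {V : Type*} [NormedAddCommGroup V]
    [NormedSpace ℝ V] [FiniteDimensional ℝ V] {g g' : (E × E) × (E × E) → V}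
    (hg : ContDiffOn ℝ ∞ g U) (hg' : ContDiffOn ℝ ∞ g' U)
    (h0 : ∀ q ∈ R, q ∈ U → g q = g' q) {q : (E × E) × (E × E)}
    (hqR : q ∈ R) (hq : q ∈ U) : dd e f g q = dd e f g' q := by
  have h1 := hD.dd_zero (hg.sub hg') (fun q hqR hq => by
    show g q - g' q = 0
    rw [h0 q hqR hq, sub_self]) hqR hq
  have h2 : fderiv ℝ (g - g') q = fderiv ℝ g q - fderiv ℝ g' q :=
    fderiv_sub (hD.diff hg hq) (hD.diff hg' hq)
  have h3 : dd e f (g - g') q = dd e f g q - dd e f g' q := by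
    show fderiv ℝ (g - g') q (VF e f q) = _
    rw [h2]
    rfl
  have h4 : dd e f (g - g') q = 0 := h1
  rw [h3] at h4
  exact sub_eq_zero.1 h4

theorem VField.dd_add (hD : VField R U e f) {V : Type*} [NormedAddCommGroup V]
    [NormedSpace ℝ V] {g g' : (E × E) × (E × E) → V}
    (hg : ContDiffOn ℝ ∞ g U) (hg' : ContDiffOn ℝ ∞ g' U) {q : (E × E) × (E × E)} (hq : q ∈ U) :
    dd e f (fun q => g q + g' q) q = dd e f g q + dd e f g' q := by
  have h2 : fderiv ℝ (fun q => g q + g' q) q = fderiv ℝ g q + fderiv ℝ g' q :=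
    fderiv_add (hD.diff hg hq) (hD.diff hg' hq)
  show fderiv ℝ (fun q => g q + g' q) q (VF e f q) = _
  rw [h2]
  rfl

theorem VField.dd_smul (hD : VField R U e f) {V : Type*} [NormedAddCommGroup V]
    [NormedSpace ℝ V] {κ : (E × E) × (E × E) → ℝ} {g : (E × E) × (E × E) → V}
    (hκ : ContDiffOn ℝ ∞ κ U) (hg : ContDiffOn ℝ ∞ g U) {q : (E × E) × (E × E)} (hq : q ∈ U) :
    dd e f (fun q => κ q • g q) q = κ q • dd e f g q + dd e f κ q • g q := by
  have h2 := ((hD.diff hκ hq).hasFDerivAt.smul (hD.diff hg hq).hasFDerivAt).fderiv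
  show fderiv ℝ (fun q => κ q • g q) q (VF e f q) = _
  have h3 : fderiv ℝ (fun q => κ q • g q) q
      = κ q • fderiv ℝ g q + (fderiv ℝ κ q).smulRight (g q) := h2
  rw [h3]
  rfl

theorem VField.dd_prod (hD : VField R U e f) {V V' : Type*} [NormedAddCommGroup V]
    [NormedSpace ℝ V] [NormedAddCommGroup V'] [NormedSpace ℝ V']
    {g : (E × E) × (E × E) → V} {g' : (E × E) × (E × E) → V'}
    (hg : ContDiffOn ℝ ∞ g U) (hg' : ContDiffOn ℝ ∞ g' U) {q : (E × E) × (E × E)} (hq : q ∈ U) :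
    dd e f (fun q => (g q, g' q)) q = (dd e f g q, dd e f g' q) := by
  have h2 := ((hD.diff hg hq).hasFDerivAt.prodMk (hD.diff hg' hq).hasFDerivAt).fderiv
  show fderiv ℝ (fun q => (g q, g' q)) q (VF e f q) = _
  rw [h2]
  rfl

theorem dd_fst (q : (E × E) × (E × E)) : dd e f (fun q => q.1.2) q = e q := by
  have h1 : HasFDerivAt (fun q : (E × E) × (E × E) => q.1.2)
      ((ContinuousLinearMap.snd ℝ E E).comp (ContinuousLinearMap.fst ℝ (E × E) (E × E))) q :=
    hasFDerivAt_fst.snd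
  show fderiv ℝ (fun q : (E × E) × (E × E) => q.1.2) q (VF e f q) = _
  rw [h1.fderiv]
  rfl

theorem dd_snd (q : (E × E) × (E × E)) : dd e f (fun q => q.2.2) q = f q := by
  have h1 : HasFDerivAt (fun q : (E × E) × (E × E) => q.2.2)
      ((ContinuousLinearMap.snd ℝ E E).comp (ContinuousLinearMap.snd ℝ (E × E) (E × E))) q :=
    hasFDerivAt_snd.snd
  show fderiv ℝ (fun q : (E × E) × (E × E) => q.2.2) q (VF e f q) = _
  rw [h1.fderiv]
  rfl

/-- The base points do not move along the field. -/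
theorem dd_base {V : Type*} [NormedAddCommGroup V] [NormedSpace ℝ V] {g : E × E → V}
    {q : (E × E) × (E × E)} (hg : DifferentiableAt ℝ g (q.1.1, q.2.1)) :
    dd e f (fun q => g (q.1.1, q.2.1)) q = 0 := by
  have h1 : HasFDerivAt (g ∘ bs E) ((fderiv ℝ g (q.1.1, q.2.1)).comp (bs E)) q :=
    HasFDerivAt.comp (g := g) q hg.hasFDerivAt (bs E).hasFDerivAt
  show fderiv ℝ (g ∘ bs E) q (VF e f q) = _
  rw [h1.fderiv]
  show fderiv ℝ g (q.1.1, q.2.1) ((0 : E), (0 : E)) = 0
  exact map_zero _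

variable {ζ : E × E → W} {A : E × E → E} {κ : (E × E) × (E × E) → ℝ}

/-- One differentiation of an identity `D ζ (m) = 0`. -/
theorem VField.step (hD : VField R U e f) (h : IdR R U ζ A κ)
    {m : (E × E) × (E × E) → E × E} (hm : ContDiffOn ℝ ∞ m U)
    (h0 : ∀ q ∈ R, q ∈ U → fderiv ℝ ζ (q.1.1, q.2.1) (m q) = 0) :
    ∀ q ∈ R, q ∈ U → fderiv ℝ ζ (q.1.1, q.2.1) (dd e f m q) = 0 := by
  intro q hqR hq
  have hsm : ∀ r ∈ U, ContDiffAt ℝ ∞
      (fun r : (E × E) × (E × E) => fderiv ℝ ζ (r.1.1, r.2.1)) r := fun r hr =>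
    ContDiffAt.comp r (f := fun r : (E × E) × (E × E) => bs E r) (g := fderiv ℝ ζ)
      (h.smoothD hr) (bs E).contDiff.contDiffAt
  have h1 := fderiv_eq_zero' (R := R)
    (f := fun r : (E × E) × (E × E) => fderiv ℝ ζ (r.1.1, r.2.1) (m r)) (hD.isOpen.mem_nhds hq)
    (fun r hr => ((hsm r hr).clm_apply
      (hm.contDiffAt (hD.isOpen.mem_nhds hr))).contDiffWithinAt) h0 (hD.mem q hqR hq)
  have h2 : HasFDerivAt (fun r : (E × E) × (E × E) => fderiv ℝ ζ (r.1.1, r.2.1))
      ((fderiv ℝ (fderiv ℝ ζ) (q.1.1, q.2.1)).comp (bs E)) q :=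
    HasFDerivAt.comp (g := fderiv ℝ ζ) q
      ((h.smoothD hq).differentiableAt (by simp)).hasFDerivAt (bs E).hasFDerivAt
  have h3 := h2.clm_apply (hD.diff hm hq).hasFDerivAt
  rw [h3.fderiv] at h1
  have h4 : bs E (VF e f q) = 0 := rfl
  simp only [add_apply, ContinuousLinearMap.comp_apply, ContinuousLinearMap.flip_apply, h4,
    map_zero, zero_apply, add_zero] at h1
  exact h1

/-- (C1) differentiated once along the field. -/
theorem VField.one (hD : VField R U e f) (h : IdR R U ζ A κ) :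
    ∀ q ∈ R, q ∈ U → fderiv ℝ ζ (q.1.1, q.2.1) (e q, κ q • f q + dd e f κ q • q.2.2) = 0 := by
  have hs1 : ContDiffOn ℝ ∞ (fun q : (E × E) × (E × E) => q.1.2) U :=
    contDiffOn_fst.snd
  have hs2 : ContDiffOn ℝ ∞ (fun q : (E × E) × (E × E) => q.2.2) U :=
    contDiffOn_snd.snd
  have g : ContDiffOn ℝ ∞ (fun q => κ q • q.2.2) U := h.smoothκ.smul hs2
  intro q hqR hq
  have h1 := hD.step h (m := fun q => (q.1.2, κ q • q.2.2)) (hs1.prodMk g)
    h.id q hqR hq
  rw [hD.dd_prod hs1 g hq, dd_fst, hD.dd_smul h.smoothκ hs2 hq, dd_snd] at h1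
  exact h1

/-- (C1) differentiated twice along the field. -/
theorem VField.two (hD : VField R U e f) (h : IdR R U ζ A κ) :
    ∀ q ∈ R, q ∈ U → fderiv ℝ ζ (q.1.1, q.2.1)
      (dd e f e q, κ q • dd e f f q + (2 * dd e f κ q) • f q
        + dd e f (dd e f κ) q • q.2.2) = 0 := by
  have hs2 : ContDiffOn ℝ ∞ (fun q : (E × E) × (E × E) => q.2.2) U :=
    contDiffOn_snd.snd
  have hκ1 := hD.smooth_dd h.smoothκ
  intro q hqR hq
  have g1 : ContDiffOn ℝ ∞ (fun q => κ q • f q) U := h.smoothκ.smul hD.smooth₂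
  have g2 : ContDiffOn ℝ ∞ (fun q => dd e f κ q • q.2.2) U := hκ1.smul hs2
  have g12 : ContDiffOn ℝ ∞ (fun q => κ q • f q + dd e f κ q • q.2.2) U := g1.add g2
  have h1 := hD.step h (m := fun q => (e q, κ q • f q + dd e f κ q • q.2.2))
    (hD.smooth₁.prodMk g12) (hD.one h) q hqR hq
  rw [hD.dd_prod hD.smooth₁ g12 hq, hD.dd_add g1 g2 hq,
    hD.dd_smul h.smoothκ hD.smooth₂ hq, hD.dd_smul hκ1 hs2 hq, dd_snd] at h1
  convert h1 using 3
  module

/-- (C1) differentiated three times along the field. -/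
theorem VField.three (hD : VField R U e f) (h : IdR R U ζ A κ) :
    ∀ q ∈ R, q ∈ U → fderiv ℝ ζ (q.1.1, q.2.1)
      (dd e f (dd e f e) q, κ q • dd e f (dd e f f) q + (3 * dd e f κ q) • dd e f f q
        + (3 * dd e f (dd e f κ) q) • f q + dd e f (dd e f (dd e f κ)) q • q.2.2) = 0 := by
  have hs2 : ContDiffOn ℝ ∞ (fun q : (E × E) × (E × E) => q.2.2) U :=
    contDiffOn_snd.snd
  have hκ1 := hD.smooth_dd h.smoothκ
  have hκ2 := hD.smooth_dd hκ1
  have hf1 := hD.smooth_dd hD.smooth₂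
  have he1 := hD.smooth_dd hD.smooth₁
  have h2κ : ContDiffOn ℝ ∞ (fun q => 2 * dd e f κ q) U := contDiffOn_const.mul hκ1
  intro q hqR hq
  have g1 : ContDiffOn ℝ ∞ (fun q => κ q • dd e f f q) U := h.smoothκ.smul hf1
  have g2 : ContDiffOn ℝ ∞ (fun q => (2 * dd e f κ q) • f q) U := h2κ.smul hD.smooth₂
  have g3 : ContDiffOn ℝ ∞ (fun q => dd e f (dd e f κ) q • q.2.2) U := hκ2.smul hs2
  have g12 : ContDiffOn ℝ ∞ (fun q => κ q • dd e f f q + (2 * dd e f κ q) • f q) U := g1.add g2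
  have g123 : ContDiffOn ℝ ∞ (fun q => κ q • dd e f f q + (2 * dd e f κ q) • f q
    + dd e f (dd e f κ) q • q.2.2) U := g12.add g3
  have h1 := hD.step h (m := fun q => (dd e f e q, κ q • dd e f f q + (2 * dd e f κ q) • f q
        + dd e f (dd e f κ) q • q.2.2))
    (he1.prodMk g123) (hD.two h) q hqR hq
  have h2 : dd e f (fun q => 2 * dd e f κ q) q = 2 * dd e f (dd e f κ) q := by
    have h3 := hD.dd_smul (κ := fun _ => (2 : ℝ)) (g := dd e f κ) contDiffOn_const hκ1 hq
    have h4 : dd e f (fun _ => (2 : ℝ)) q = 0 := by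
      show fderiv ℝ (fun _ => (2 : ℝ)) q _ = 0
      simp
    rw [h4, zero_smul, add_zero] at h3
    exact h3
  rw [hD.dd_prod he1 g123 hq, hD.dd_add g12 g3 hq, hD.dd_add g1 g2 hq,
    hD.dd_smul h.smoothκ hf1 hq, hD.dd_smul h2κ hD.smooth₂ hq, hD.dd_smul hκ2 hs2 hq, dd_snd,
    h2] at h1
  convert h1 using 3
  module

end Pool.Agent.H52.S5
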